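import Pool.Agent.Helper29.AN.LN

/-!
# Step (5b) of THEOREM AN (MP_d69e80_al): a short commutator on which `C` does not vanish
-/

set_option autoImplicit false

namespace Pool.Agent.Helper37.AN

open Pointwise
open scoped commutatorElement
open Pool.Agent.Helper11.Gap (Sym)

/-- `A` a normal subgroup containing `γ_{c+1}(G)`, `e a : V → K` additive in `a ∈ A`, `ρ g` on `V`
dual to the conjugation, `C` invariant under all `ρ g`, and `ρ s - 1` maps `C` onto `C`.  If `C` does
not vanish on `A` then it does not vanish at some `w ∈ T ^ (3 * 2 ^ c - 2)`, `w ∈ A`. -/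
theorem exists_word {G : Type*} [Group G] [DecidableEq G] {T : Finset G} (hT : Sym T)
    (hgen : Subgroup.closure (T : Set G) = ⊤) (A : Subgroup G) (hA : A.Normal) (c : ℕ)
    (hc : (⊤ : Subgroup G).lowerCentralSeries c ≤ A)
    {K V : Type*} [Field K] [AddCommGroup V] [Module K V] (e : G → V →ₗ[K] K)
    (he : ∀ a ∈ A, ∀ b ∈ A, e (a * b) = e a + e b) (ρ : G → V →ₗ[K] V)
    (hρ : ∀ g, ∀ a ∈ A, ∀ f, e a (ρ g f) = e (g * a * g⁻¹) f) (C : Submodule K V)
    (hC : ∀ g, ∀ f ∈ C, ρ g f ∈ C) (s : G) (hs : ∀ f ∈ C, ∃ g ∈ C, ρ s g - g = f)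
    (hne : ∃ a ∈ A, ∃ f ∈ C, e a f ≠ 0) :
    ∃ w ∈ A, w ∈ T ^ (3 * 2 ^ c - 2) ∧ ∃ f ∈ C, e w f ≠ 0 := by
  have he1 : e 1 = 0 := by
    have := he 1 A.one_mem 1 A.one_mem
    rw [mul_one] at this
    simpa using this
  have heinv : ∀ a ∈ A, e a⁻¹ = - e a := by
    intro a ha
    have := he a ha a⁻¹ (A.inv_mem ha)
    rw [mul_inv_cancel, he1] at this
    exact (neg_eq_of_add_eq_zero_right this.symm).symm
  let N : Subgroup G :=
    { carrier := {a | a ∈ A ∧ ∀ f ∈ C, e a f = 0}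
      mul_mem' := by
        rintro a b ⟨ha, ha'⟩ ⟨hb, hb'⟩
        refine ⟨A.mul_mem ha hb, fun f hf => ?_⟩
        rw [he a ha b hb, LinearMap.add_apply, ha' f hf, hb' f hf, add_zero]
      one_mem' := ⟨A.one_mem, fun f _ => by rw [he1, LinearMap.zero_apply]⟩
      inv_mem' := by
        rintro a ⟨ha, ha'⟩
        refine ⟨A.inv_mem ha, fun f hf => ?_⟩
        rw [heinv a ha, LinearMap.neg_apply, ha' f hf, neg_zero] }
  have hNmem : ∀ a, a ∈ N ↔ a ∈ A ∧ ∀ f ∈ C, e a f = 0 := fun a => Iff.rfl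
  haveI hN : N.Normal := by
    refine ⟨fun a ha g => ?_⟩
    rw [hNmem] at ha ⊢
    refine ⟨hA.conj_mem a ha.1 g, fun f hf => ?_⟩
    rw [← hρ g a ha.1 f]
    exact ha.2 _ (hC g f hf)
  by_cases h : (⊤ : Subgroup G).lowerCentralSeries c ≤ N
  · exfalso
    obtain ⟨a, ha, f, hf, hne⟩ := hne
    -- the sequence `[a, s, ..., s]`
    let x : ℕ → G := fun n => Nat.rec a (fun _ y => ⁅s, y⁆) n
    have hx0 : x 0 = a := rfl
    have hxs : ∀ n, x (n + 1) = ⁅s, x n⁆ := fun _ => rfl
    have hxA : ∀ n, x n ∈ A := by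
      intro n
      induction n with
      | zero => exact ha
      | succ n ih =>
        rw [hxs, commutatorElement_def]
        exact A.mul_mem (hA.conj_mem _ ih s) (A.inv_mem ih)
    have hxl : ∀ n, x n ∈ (⊤ : Subgroup G).lowerCentralSeries n := by
      intro n
      induction n with
      | zero => exact Subgroup.mem_top _
      | succ n ih =>
        rw [hxs, ← commutatorElement_inv]
        exact Subgroup.inv_mem _ (Subgroup.commutator_mem_commutator ih (Subgroup.mem_top s))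
    have hev : ∀ n, ∀ g, e (x (n + 1)) g = e (x n) (ρ s g - g) := by
      intro n g
      rw [hxs, commutatorElement_def, he _ (hA.conj_mem _ (hxA n) s) _ (A.inv_mem (hxA n)),
        heinv _ (hxA n), LinearMap.add_apply, LinearMap.neg_apply, map_sub, hρ s _ (hxA n) g,
        sub_eq_add_neg]
    have hkey : ∀ n, ∀ g ∈ C, ∃ g' ∈ C, e (x n) g' = e a g := by
      intro n
      induction n with
      | zero => intro g hg; exact ⟨g, hg, rfl⟩
      | succ n ih =>
        intro g hg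
        obtain ⟨g₁, hg₁, h₁⟩ := ih g hg
        obtain ⟨g₂, hg₂, h₂⟩ := hs g₁ hg₁
        exact ⟨g₂, hg₂, by rw [hev, h₂, h₁]⟩
    obtain ⟨g', hg', h'⟩ := hkey c f hf
    apply hne
    rw [← h']
    exact ((hNmem _).1 (h (hxl c))).2 g' hg'
  · obtain ⟨w, hwl, hwT, hwN⟩ := Pool.Agent.Helper29.AN.exists_short hT hgen c N h
    refine ⟨w, hc hwl, hwT, ?_⟩
    by_contra hcon
    push Not at hcon
    exact hwN ((hNmem w).2 ⟨hc hwl, hcon⟩)

/-- On a finite dimensional invariant subspace without fixed vectors, `ρ s - 1` is onto. -/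
theorem sub_one_onto {K V : Type*} [Field K] [AddCommGroup V] [Module K V]
    (E : V →ₗ[K] V) (C : Submodule K V) [FiniteDimensional K C] (hC : ∀ f ∈ C, E f ∈ C)
    (h1 : ∀ f ∈ C, E f = f → f = 0) : ∀ f ∈ C, ∃ g ∈ C, E g - g = f := by
  have hC' : ∀ f ∈ C, (E - (LinearMap.id : V →ₗ[K] V)) f ∈ C := fun f hf => by
    rw [LinearMap.sub_apply, LinearMap.id_apply]
    exact C.sub_mem (hC f hf) hf
  let D : C →ₗ[K] C := (E - (LinearMap.id : V →ₗ[K] V)).restrict hC'
  have hinj : Function.Injective D := by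
    rw [← LinearMap.ker_eq_bot, LinearMap.ker_eq_bot']
    rintro ⟨f, hf⟩ h
    have h' : E f - f = 0 := congrArg Subtype.val h
    exact Subtype.ext (h1 f hf (sub_eq_zero.1 h'))
  have hsurj : Function.Surjective D := LinearMap.injective_iff_surjective.1 hinj
  intro f hf
  obtain ⟨⟨g, hg⟩, hgf⟩ := hsurj ⟨f, hf⟩
  exact ⟨g, hg, congrArg Subtype.val hgf⟩

end Pool.Agent.Helper37.AN
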