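import Mathlib

/-!
# Step (6) of THEOREM AN (MP_d69e80_al): from a functional to a character on an orbit
-/

namespace Pool.Agent.Helper37.AN

/-- Let `E` be an automorphism of a finite dimensional space `C` over an algebraically closed
field, `ev` a functional and `ev f ≠ 0`.  Then there are an eigenvalue `μ` of `E` and `g` with
`ev (E ^ k g) = μ ^ k ev g` for all integers `k` and `ev g ≠ 0`. -/
theorem exists_orbit_character {K : Type*} [Field K] [IsAlgClosed K] {C : Type*} [AddCommGroup C]
    [Module K C] [FiniteDimensional K C] (E : C ≃ₗ[K] C) (ev : C →ₗ[K] K) (f : C)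
    (hf : ev f ≠ 0) :
    ∃ μ : K, Module.End.HasEigenvalue (E : C →ₗ[K] C) μ ∧ μ ≠ 0 ∧
      ∃ g : C, (∀ k : ℤ, ev ((E ^ k) g) = μ ^ k * ev g) ∧ ev g ≠ 0 := by
  classical
  let N : Submodule K C := ⨅ k : ℤ, LinearMap.ker (ev ∘ₗ ((E ^ k : C ≃ₗ[K] C) : C →ₗ[K] C))
  have hN : ∀ x, x ∈ N ↔ ∀ k : ℤ, ev ((E ^ k) x) = 0 := by
    intro x
    simp [N, Submodule.mem_iInf]
  have hEN : N ≤ N.comap (E : C →ₗ[K] C) := by
    intro x hx
    rw [Submodule.mem_comap, hN]
    rw [hN] at hx
    intro k
    have h := hx (k + 1)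
    rw [zpow_add_one] at h
    simpa using h
  let Eb : (C ⧸ N) →ₗ[K] (C ⧸ N) := N.mapQ N (E : C →ₗ[K] C) hEN
  have hfN : f ∉ N := by
    intro h
    rw [hN] at h
    apply hf
    simpa using h 0
  haveI : Nontrivial (C ⧸ N) := by
    refine ⟨⟨Submodule.Quotient.mk f, 0, ?_⟩⟩
    rw [Ne, Submodule.Quotient.mk_eq_zero]
    exact hfN
  obtain ⟨μ, hμ⟩ := Module.End.exists_eigenvalue Eb
  obtain ⟨gb, hgb⟩ := hμ.exists_hasEigenvector
  obtain ⟨g, rfl⟩ := Submodule.Quotient.mk_surjective N gb
  have h1 : Eb (Submodule.Quotient.mk g) = μ • Submodule.Quotient.mk g :=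
    Module.End.HasEigenvector.apply_eq_smul hgb
  have h2 : E g - μ • g ∈ N := by
    rw [← Submodule.Quotient.mk_eq_zero, Submodule.Quotient.mk_sub, Submodule.Quotient.mk_smul]
    rw [← h1]
    simp [Eb]
  have hgN : g ∉ N := by
    intro h
    exact hgb.2 ((Submodule.Quotient.mk_eq_zero N).2 h)
  have hstep : ∀ k : ℤ, ev ((E ^ (k + 1)) g) = μ * ev ((E ^ k) g) := by
    intro k
    have h := (hN _).1 h2 k
    rw [map_sub, map_smul, map_sub, map_smul, smul_eq_mul, sub_eq_zero] at h
    rw [← h, zpow_add_one]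
    rfl
  -- the eigenvalue of the quotient is an eigenvalue
  have hEig : Module.End.HasEigenvalue (E : C →ₗ[K] C) μ := by
    apply Module.End.hasEigenvalue_of_isRoot
    have hdvd : minpoly K Eb ∣ minpoly K (E : C →ₗ[K] C) := by
      apply minpoly.dvd
      have hcomm : ∀ (p : Polynomial K) (x : C),
          (Polynomial.aeval Eb p) (Submodule.Quotient.mk x) =
            Submodule.Quotient.mk ((Polynomial.aeval (E : C →ₗ[K] C) p) x) := by
        intro p x
        induction p using Polynomial.induction_on' with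
        | add p q hp hq => simp [hp, hq]
        | monomial n a =>
          simp only [Polynomial.aeval_monomial, Module.algebraMap_end_eq_smul_id]
          have hpow : ∀ n : ℕ, (Eb ^ n) (Submodule.Quotient.mk x) =
              Submodule.Quotient.mk (((E : C →ₗ[K] C) ^ n) x) := by
            intro n
            induction n with
            | zero => simp
            | succ n ih => rw [pow_succ', pow_succ', Module.End.mul_apply, Module.End.mul_apply, ih]; rfl
          simp [hpow]
      ext x
      simp [hcomm, minpoly.aeval]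
    exact (Module.End.isRoot_of_hasEigenvalue hμ).dvd hdvd
  have hμ0 : μ ≠ 0 := by
    rintro rfl
    obtain ⟨v, hv⟩ := hEig.exists_hasEigenvector
    have := hv.apply_eq_smul
    simp at this
    exact hv.2 this
  have hnat : ∀ k : ℕ, ev ((E ^ (k : ℤ)) g) = μ ^ (k : ℤ) * ev g := by
    intro k
    induction k with
    | zero => simp
    | succ k ih =>
      have := hstep k
      push_cast
      rw [this, ih, zpow_add_one₀ hμ0]
      ring
  have hneg : ∀ k : ℕ, ev ((E ^ (-(k : ℤ))) g) = μ ^ (-(k : ℤ)) * ev g := by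
    intro k
    induction k with
    | zero => simp
    | succ k ih =>
      have := hstep (-((k : ℤ) + 1))
      rw [show -((k : ℤ) + 1) + 1 = -(k : ℤ) by ring, ih] at this
      push_cast
      apply mul_left_cancel₀ hμ0
      rw [← this, ← mul_assoc, ← zpow_one_add₀ hμ0]
      congr 2
      ring
  have hall : ∀ k : ℤ, ev ((E ^ k) g) = μ ^ k * ev g := by
    intro k
    obtain ⟨n, rfl | rfl⟩ := k.eq_nat_or_neg
    · exact hnat n
    · exact hneg n
  refine ⟨μ, hEig, hμ0, g, hall, ?_⟩
  intro h0
  apply hgN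
  rw [hN]
  intro k
  rw [hall k, h0, mul_zero]

end Pool.Agent.Helper37.AN
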