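import Pool.Agent.Helper51.AN.Goals
import Pool.Agent.Helper37.AN.ANN

/-!
# Packet WIT of project AN (MP_d69e80_al)
-/

set_option autoImplicit false

namespace Pool.Agent.Helper37.AN

open Pointwise
open Pool.Agent.Helper94.GA Pool.Agent.Helper73.GA Pool.Agent.Helper51.AN
open Pool.Agent.Helper11.Gap (Sym)

universe u

open Classical in
/-- evaluation at `a` (zero if `a ∉ A`) -/
noncomputable def evA {H : Type u} [Group H] (A : Subgroup H) (a : H) :
    VV A →ₗ[AlgebraicClosure ℚ] AlgebraicClosure ℚ :=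
  if h : a ∈ A then
    { toFun := fun f => f (Additive.ofMul ⟨a, h⟩)
      map_add' := fun _ _ => rfl
      map_smul' := fun _ _ => rfl }
  else 0

theorem evA_apply {H : Type u} [Group H] (A : Subgroup H) (a : H) (h : a ∈ A) (f : VV A) :
    evA A a f = f (Additive.ofMul ⟨a, h⟩) := by
  unfold evA
  rw [dif_pos h]
  rfl

/-- **WIT.** -/
theorem wit : WitStmt.{u} := by
  intro H _ _ T hT hgen A _ hab hfg c hc C hC hC0 s hs
  haveI := finV A hfg
  haveI : FiniteDimensional (AlgebraicClosure ℚ) C :=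
    FiniteDimensional.finiteDimensional_submodule C
  have hCT : ∀ g : H, ∀ f ∈ C, TT A g f ∈ C := by
    intro g f hf
    have := hC g⁻¹ f hf
    rwa [rho_apply, inv_inv] at this
  have hone : ∀ f ∈ C, ∃ g ∈ C, TT A s g - g = f := by
    apply sub_one_onto (TT A s) C (hCT s)
    intro f hf h1
    by_contra hf0
    exact hs 1 f hf hf0 (by rw [h1, one_smul]) ⟨1, one_pos, one_pow 1⟩
  have hne : ∃ a ∈ A, ∃ f ∈ C, evA A a f ≠ 0 := by
    obtain ⟨f, hf, hf0⟩ := (Submodule.ne_bot_iff C).1 hC0
    have : ∃ a : A, f (Additive.ofMul a) ≠ 0 := by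
      by_contra hcon
      push Not at hcon
      exact hf0 (AddMonoidHom.ext fun a => hcon (Additive.toMul a))
    obtain ⟨⟨a, ha⟩, h⟩ := this
    exact ⟨a, ha, f, hf, by rwa [evA_apply A a ha]⟩
  obtain ⟨w, hw, hwT, f, hf, hwf⟩ := exists_word hT hgen A inferInstance c hc (evA A)
    (by
      intro a ha b hb
      ext f
      rw [LinearMap.add_apply, evA_apply A _ (A.mul_mem ha hb), evA_apply A a ha,
        evA_apply A b hb, ← map_add]
      rfl)
    (TT A)
    (by
      intro g a ha f
      have hg : g * a * g⁻¹ ∈ A := Subgroup.Normal.conj_mem inferInstance a ha g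
      rw [evA_apply A a ha, evA_apply A _ hg, TT_apply]
      rfl) C hCT s hone hne
  refine ⟨w, hwT, hw, f, hf, ?_⟩
  rwa [evA_apply A w hw] at hwf

end Pool.Agent.Helper37.AN
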